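import Mathlib
import Pool.Agent.Q293.HullWalk

/-!
# Perimeter variance of convex hulls of walks with degenerate drift: it can be almost linear
-/

set_option autoImplicit false

open MeasureTheory ProbabilityTheory Finset Filter Topology
open Q293.HullPerim Q293.HullModel Q293.HullWalk

namespace Pool.Agent.Results.MP_1c2560_pr.VarianceAlmostLinear

/-- variance of the component of `X` in the direction `v` -/
noncomputable def compVar {Ω : Type} [MeasurableSpace Ω] (P : Measure Ω) (X : Ω → E2) (v : E2) : ℝ :=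
  ∫ ω, (inner ℝ (X ω - ∫ ω', X ω' ∂P) v) ^ 2 ∂P

lemma mean_Z : ∫ ω, Z 0 ω ∂P = EuclideanSpace.single 0 1 := by
  unfold Z G
  rw [integral_add (integrable_const _), integral_const, integral_smul_const,
    integral_eval xi 0, mean_xi]
  · simp
  · exact ((memLp_eval memLp_xi 0).integrable (by norm_num)).smul_const _

lemma compVar_eq (v : E2) : compVar P (Z 0) v = (v 1) ^ 2 * ∫ x, xi x ^ 2 ∂nu := by
  unfold compVar
  rw [mean_Z]
  have h : ∀ ω, (inner ℝ (Z 0 ω - EuclideanSpace.single 0 1) v : ℝ) ^ 2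
      = (v 1) ^ 2 * xi (ω 0) ^ 2 := by
    intro ω
    unfold Z G
    rw [add_sub_cancel_left, inner_smul_left, EuclideanSpace.inner_single_left]
    simp
    ring
  simp_rw [h]
  rw [integral_const_mul, integral_eval (fun x => xi x ^ 2) 0]

lemma sq_pos : 0 < ∫ x, xi x ^ 2 ∂nu := by
  have h1 := V_lower 0
  have h2 : V 0 ≤ ∫ x, xi x ^ 2 ∂nu := by
    unfold V
    apply integral_mono (memLp_psi 0).integrable_sq memLp_xi.integrable_sq
    intro x
    simp only
    rw [← sq_abs (xi x)]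
    exact pow_le_pow_left₀ (psi_nonneg _ _) (psi_le _ _) 2
  have h3 := c0_pos
  have h4 : 0 < c0 / (4 * (((0 : ℕ) : ℝ) + 1)) := by positivity
  linarith

lemma var_ge : ∃ c : ℝ, 0 < c ∧ ∀ n : ℕ, 2 ≤ n →
    c * n / Real.log n ≤ Var[hullPerimeter Z n; P] := by
  obtain ⟨M, hM⟩ := pow_unbounded_of_one_lt (6 * (1 + e)) (one_lt_two)
  have hc0 := c0_pos
  refine ⟨c0 / (16 * (2 * M + 20)), by positivity, ?_⟩
  intro n hn
  set k0 : ℕ := M + 3 * (Nat.log 2 (n + 1) + 1) with hk0
  have he := e_nonneg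
  have hpow : 6 * (1 + e) * ((n : ℝ) + 1) ^ 3 ≤ 2 ^ k0 := by
    have h1 : n + 1 < 2 ^ (Nat.log 2 (n + 1) + 1) := Nat.lt_pow_succ_log_self (by norm_num) _
    have h2 : ((n : ℝ) + 1) ≤ 2 ^ (Nat.log 2 (n + 1) + 1) := by exact_mod_cast h1.le
    calc 6 * (1 + e) * ((n : ℝ) + 1) ^ 3 ≤ 2 ^ M * (2 ^ (Nat.log 2 (n + 1) + 1)) ^ 3 := by
          apply mul_le_mul hM.le (pow_le_pow_left₀ (by positivity) h2 3) (by positivity) (by positivity)
      _ = 2 ^ k0 := by rw [hk0, pow_add 2 M, pow_mul' 2 3]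
  have h1 := var_lower n k0 hpow
  have h2 := V_lower k0
  have hn2 : (2 : ℝ) ≤ n := by exact_mod_cast hn
  have hlog2 : (1 / 2 : ℝ) < Real.log 2 := by
    have := Real.log_two_gt_d9; linarith
  have hlogn : (1 / 2 : ℝ) < Real.log n := hlog2.trans_le (Real.log_le_log (by norm_num) hn2)
  have hlogn1 : Real.log ((n : ℝ) + 1) ≤ 2 * Real.log n := by
    rw [← Real.log_rpow (by linarith)]
    apply Real.log_le_log (by linarith)
    norm_num
    nlinarith
  have hnl : (Nat.log 2 (n + 1) : ℝ) ≤ 4 * Real.log n := by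
    have h3 : 2 ^ (Nat.log 2 (n + 1)) ≤ n + 1 := Nat.pow_log_le_self 2 (by omega)
    have h4 : (2 : ℝ) ^ (Nat.log 2 (n + 1)) ≤ n + 1 := by exact_mod_cast h3
    have h5 := Real.log_le_log (by positivity) h4
    rw [Real.log_pow] at h5
    have h6 : (0 : ℝ) ≤ Nat.log 2 (n + 1) := Nat.cast_nonneg _
    nlinarith
  have hk : (k0 : ℝ) + 1 ≤ (2 * M + 20) * Real.log n := by
    have : (k0 : ℝ) + 1 = M + 4 + 3 * Nat.log 2 (n + 1) := by rw [hk0]; push_cast; ring
    rw [this]
    have hM0 : (0 : ℝ) ≤ M := Nat.cast_nonneg M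
    nlinarith
  have hn0 : (0 : ℝ) ≤ n := by linarith
  calc c0 / (16 * (2 * M + 20)) * n / Real.log n
      = n * (c0 / (4 * ((2 * M + 20) * Real.log n))) / 4 := by
        have : Real.log n ≠ 0 := by linarith
        field_simp
        ring
    _ ≤ n * (c0 / (4 * (k0 + 1))) / 4 := by
        gcongr
    _ ≤ n * V k0 / 4 := by gcongr
    _ ≤ _ := h1

/-- **MP_1c2560_pr, Q1 (disproved).**  There are i.i.d. vectors `Z 0, Z 1, …` of the plane, square
integrable, with non-zero mean, with zero variance in the direction of the drift and positive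
variance in the orthogonal direction, such that the variance of the perimeter `L n` of the convex
hull of `S 0, …, S n` is at least `c * n / log n`; in particular `Var (L n) / log n → ∞`. -/
theorem result :
    ∃ (Ω : Type) (_ : MeasurableSpace Ω) (P : Measure Ω) (_ : IsProbabilityMeasure P)
      (Z : ℕ → Ω → E2),
      (∀ i, Measurable (Z i)) ∧ iIndepFun Z P ∧ (∀ i, IdentDistrib (Z i) (Z 0) P P) ∧
      MemLp (Z 0) 2 P ∧
      (∫ ω, Z 0 ω ∂P) ≠ 0 ∧
      compVar P (Z 0) (‖∫ ω, Z 0 ω ∂P‖⁻¹ • ∫ ω, Z 0 ω ∂P) = 0 ∧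
      (∀ v : E2, ‖v‖ = 1 → inner ℝ v (∫ ω, Z 0 ω ∂P) = 0 → 0 < compVar P (Z 0) v) ∧
      (∀ n, MemLp (hullPerimeter Z n) 2 P) ∧
      (∃ c : ℝ, 0 < c ∧ ∀ n : ℕ, 2 ≤ n → c * n / Real.log n ≤ Var[hullPerimeter Z n; P]) ∧
      Tendsto (fun n : ℕ => Var[hullPerimeter Z n; P] / Real.log n) atTop atTop := by
  have hG : Measurable G := measurable_of_countable _
  refine ⟨ℕ → A, inferInstance, P, inferInstance, Z, ?_, ?_, ?_, ?_, ?_, ?_, ?_, memLp_hull,
    var_ge, ?_⟩
  · intro i
    exact hG.comp (mp i).measurable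
  · exact iindep.comp (fun _ => G) (fun _ => hG)
  · intro i
    refine ⟨(hG.comp (mp i).measurable).aemeasurable, (hG.comp (mp 0).measurable).aemeasurable, ?_⟩
    have h : ∀ i, P.map (Z i) = nu.map G := by
      intro i
      rw [← (mp i).map_eq, Measure.map_map hG (mp i).measurable]
      rfl
    rw [h i, h 0]
  · have hb : MemLp (fun ω : ℕ → A => 1 + |xi (ω 0)|) 2 P := by
      have h0 : MemLp (fun _ : ℕ → A => (1 : ℝ)) 2 P := memLp_const 1
      exact h0.add (memLp_eval memLp_abs 0)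
    refine hb.mono (hG.comp (mp 0).measurable).aestronglyMeasurable
      (Eventually.of_forall fun ω => ?_)
    refine (norm_G_le _).trans ?_
    rw [Real.norm_eq_abs]
    exact le_abs_self _
  · rw [mean_Z]
    simp
  · rw [compVar_eq, mean_Z]
    simp
  · intro v hv hv0
    rw [compVar_eq]
    rw [mean_Z, EuclideanSpace.inner_single_right] at hv0
    have h0 : v 0 = 0 := by simpa using hv0
    have h1 : (v 1) ^ 2 = 1 := by
      have := EuclideanSpace.norm_eq v
      rw [hv, Fin.sum_univ_two, h0] at this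
      have h2 : (v 1) ^ 2 = (Real.sqrt (‖(0 : ℝ)‖ ^ 2 + ‖v 1‖ ^ 2)) ^ 2 := by
        rw [Real.sq_sqrt (by positivity)]
        simp
      rw [h2, ← this]; norm_num
    rw [h1, one_mul]
    exact sq_pos
  · obtain ⟨c, hc, hvar⟩ := var_ge
    have h1 : Tendsto (fun n : ℕ => c * (Real.exp (Real.log n) / Real.log n ^ 2)) atTop atTop := by
      apply Tendsto.const_mul_atTop hc
      exact (Real.tendsto_exp_div_pow_atTop 2).comp
        (Real.tendsto_log_atTop.comp tendsto_natCast_atTop_atTop)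
    refine tendsto_atTop_mono' _ ?_ h1
    filter_upwards [eventually_ge_atTop 2] with n hn
    have hn2 : (2 : ℝ) ≤ n := by exact_mod_cast hn
    have hlog : 0 < Real.log n := Real.log_pos (by linarith)
    rw [Real.exp_log (by linarith), le_div_iff₀ hlog]
    refine le_trans (le_of_eq ?_) (hvar n hn)
    field_simp

end Pool.Agent.Results.MP_1c2560_pr.VarianceAlmostLinear
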